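import Pool.Agent.N139.MS.Stm

/-! Step FIN of the project MS of helper139 (by helper608). -/

set_option autoImplicit false

namespace Pool.Agent.N608.MS.FIN

open Filter Topology Matrix
open Pool.Agent.W661.RC (HasT Mt hs IsPr PtbP PtcP)
open Pool.Agent.N139.MS

noncomputable section

theorem on_nonneg {d : ℕ} (M : Mt d) : 0 ≤ on M := norm_nonneg _

theorem on_zero {d : ℕ} : on (0 : Mt d) = 0 := by
  unfold on
  rw [map_zero, norm_zero]

theorem on_sub_comm {d : ℕ} (A B : Mt d) : on (A - B) = on (B - A) := by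
  unfold on
  rw [map_sub, map_sub, norm_sub_rev]

theorem on_sub_le {d : ℕ} (A B C : Mt d) : on (A - C) ≤ on (A - B) + on (B - C) := by
  unfold on
  rw [map_sub, map_sub, map_sub]
  exact norm_sub_le_norm_sub_add_norm_sub _ _ _

theorem clm_mem {d : ℕ} (u : Matrix.unitaryGroup (Fin d) ℂ) :
    Matrix.toEuclideanCLM (n := Fin d) (𝕜 := ℂ) u.val ∈
      unitary (EuclideanSpace ℂ (Fin d) →L[ℂ] EuclideanSpace ℂ (Fin d)) := by
  have h1 := Matrix.mem_unitaryGroup_iff.1 u.2
  have h2 := Matrix.mem_unitaryGroup_iff'.1 u.2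
  constructor
  · rw [← map_star, ← map_mul, h2, map_one]
  · rw [← map_star, ← map_mul, h1, map_one]

theorem on_unit_mul {d : ℕ} (u : Matrix.unitaryGroup (Fin d) ℂ) (M : Mt d) :
    on (u.val * M) = on M := by
  unfold on
  rw [map_mul]
  exact CStarRing.norm_mem_unitary_mul _ (clm_mem u)

theorem on_mul_unit {d : ℕ} (u : Matrix.unitaryGroup (Fin d) ℂ) (M : Mt d) :
    on (M * u.val) = on M := by
  unfold on
  rw [map_mul]
  exact CStarRing.norm_mul_mem_unitary _ (clm_mem u)

theorem on_eq_zero {d : ℕ} {M : Mt d} (h : on M = 0) : M = 0 := by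
  unfold on at h
  rw [norm_eq_zero] at h
  exact (map_eq_zero_iff _ (Matrix.toEuclideanCLM (n := Fin d) (𝕜 := ℂ)).injective).1 h

theorem inv_val {d : ℕ} (a : Matrix.unitaryGroup (Fin d) ℂ) :
    (a⁻¹).val * a.val = 1 ∧ a.val * (a⁻¹).val = 1 := by
  constructor
  · rw [← Matrix.UnitaryGroup.mul_val, inv_mul_cancel]; rfl
  · rw [← Matrix.UnitaryGroup.mul_val, mul_inv_cancel]; rfl

/-- distance of products -/
theorem on_mul_sub {d : ℕ} (a a' b b' : Matrix.unitaryGroup (Fin d) ℂ) :
    on (a.val * b.val - a'.val * b'.val) ≤ on (a.val - a'.val) + on (b.val - b'.val) := by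
  refine (on_sub_le _ (a'.val * b.val) _).trans ?_
  rw [← Matrix.sub_mul, ← Matrix.mul_sub, on_mul_unit, on_unit_mul]

theorem on_inv_sub {d : ℕ} (a b : Matrix.unitaryGroup (Fin d) ℂ) :
    on ((a⁻¹).val - (b⁻¹).val) = on (a.val - b.val) := by
  have e : (a⁻¹).val - (b⁻¹).val = (a⁻¹).val * (b.val - a.val) * (b⁻¹).val := by
    rw [Matrix.mul_sub, Matrix.sub_mul, (inv_val a).1, Matrix.one_mul, Matrix.mul_assoc,
      (inv_val b).2, Matrix.mul_one]
  rw [e, on_mul_unit, on_unit_mul, on_sub_comm]

variable {G : Type} [Group G] {d : ℕ → ℕ} {f : ∀ n, G → Matrix.unitaryGroup (Fin (d n)) ℂ}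

theorem f_one (hf : OpAH d f) : Tendsto (fun n => on ((f n 1).val - 1)) atTop (𝓝 0) := by
  have h := hf 1 1
  refine h.congr fun n => ?_
  rw [mul_one]
  have e : (f n 1).val - (f n 1).val * (f n 1).val = (f n 1).val * (1 - (f n 1).val) := by
    rw [Matrix.mul_sub, Matrix.mul_one]
  rw [e, on_unit_mul, on_sub_comm]

theorem f_inv (hf : OpAH d f) (g : G) :
    Tendsto (fun n => on ((f n g⁻¹).val - ((f n g)⁻¹).val)) atTop (𝓝 0) := by
  have h1 := (hf g g⁻¹).add (f_one hf)
  rw [add_zero] at h1
  refine squeeze_zero (fun n => on_nonneg _) (fun n => ?_) h1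
  rw [mul_inv_cancel]
  have e : on ((f n g⁻¹).val - ((f n g)⁻¹).val) = on ((f n g).val * (f n g⁻¹).val - 1) := by
    rw [← on_unit_mul (f n g) ((f n g⁻¹).val - ((f n g)⁻¹).val), Matrix.mul_sub,
      (inv_val (f n g)).2]
  rw [e]
  refine (on_sub_le _ (f n 1).val _).trans ?_
  rw [on_sub_comm ((f n g).val * (f n g⁻¹).val) (f n 1).val]

theorem t_FIN : S_FIN := by
  intro K G _ _ ι t χ hgen hχι hχt htriv
  constructor
  · intro d f hf
    let ρ : ∀ n : ℕ, G →* Matrix.unitaryGroup (Fin (d n)) ℂ := fun n =>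
      (zpowersHom _ (f n t)).comp χ
    refine ⟨ρ, fun g => ?_⟩
    have hg : g ∈ Subgroup.closure (Set.range ι ∪ {t}) := by rw [hgen]; trivial
    induction hg using Subgroup.closure_induction with
    | mem x hx =>
      rcases hx with ⟨k, rfl⟩ | hx
      · refine (htriv d f hf k).congr fun n => ?_
        have : ρ n (ι k) = 1 := by
          show (zpowersHom _ (f n t)) (χ (ι k)) = 1
          rw [hχι, map_one]
        rw [this]; rfl
      · rw [Set.mem_singleton_iff] at hx
        subst hx
        have : ∀ n, ρ n x = f n x := by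
          intro n
          show (zpowersHom _ (f n x)) (χ x) = f n x
          rw [hχt, zpowersHom_apply, toAdd_ofAdd, zpow_one]
        refine tendsto_const_nhds.congr fun n => ?_
        rw [this, sub_self, on_zero]
    | one =>
      refine (f_one hf).congr fun n => ?_
      rw [map_one]; rfl
    | mul x y _ _ hx hy =>
      have h1 := ((hf x y).add hx).add hy
      rw [add_zero, add_zero] at h1
      refine squeeze_zero (fun n => on_nonneg _) (fun n => ?_) h1
      refine (on_sub_le _ ((f n x).val * (f n y).val) _).trans ?_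
      rw [map_mul, Matrix.UnitaryGroup.mul_val, add_assoc]
      exact add_le_add_right (on_mul_sub _ _ _ _) _
    | inv x _ hx =>
      have h1 := (f_inv hf x).add hx
      rw [add_zero] at h1
      refine squeeze_zero (fun n => on_nonneg _) (fun n => ?_) h1
      refine (on_sub_le _ ((f n x)⁻¹).val _).trans ?_
      rw [map_inv, on_inv_sub]
  · intro d ρ k
    have h := htriv (fun _ => d) (fun _ g => ρ g) (fun g h => by
      refine tendsto_const_nhds.congr fun n => ?_
      show 0 = on ((ρ (g * h)).val - (ρ g).val * (ρ h).val)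
      rw [map_mul, Matrix.UnitaryGroup.mul_val, sub_self, on_zero]) k
    have h2 : on ((ρ (ι k)).val - 1) = 0 := tendsto_nhds_unique tendsto_const_nhds h
    have h3 := on_eq_zero h2
    rw [sub_eq_zero] at h3
    exact Subtype.ext h3

end

end Pool.Agent.N608.MS.FIN
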